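import Pool.Agent.W384.Defs

/-!
Compactness of Lipschitz operators on odd `SL(2,ℤ)`-invariant bounded functions (task W384-E).
-/

set_option autoImplicit false

open UpperHalfPlane MeasureTheory Filter Topology
open scoped MatrixGroups BoundedContinuousFunction ContDiff Modular

namespace Pool.Agent.W2.E384

open Pool.Agent.W384

theorem evc (z : ℍ) : Continuous (fun f : ℍ →ᵇ ℂ => f z) :=
  (continuous_apply z).comp BoundedContinuousFunction.continuous_coe

theorem isClosed_oddInv : IsClosed (OddInv : Set (ℍ →ᵇ ℂ)) := by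
  have h : (OddInv : Set (ℍ →ᵇ ℂ)) =
      (⋂ (γ : SL(2, ℤ)) (z : ℍ), {f : ℍ →ᵇ ℂ | f (γ • z) = f z}) ∩
        ⋂ z : ℍ, {f : ℍ →ᵇ ℂ | f (J • z) = - f z} := by
    ext f
    simp only [SetLike.mem_coe, Set.mem_inter_iff, Set.mem_iInter, Set.mem_ofPred_eq]
    rfl
  rw [h]
  refine IsClosed.inter ?_ ?_
  · refine isClosed_iInter fun γ => isClosed_iInter fun z => ?_
    exact isClosed_eq (evc (γ • z))
      (evc z)
  · refine isClosed_iInter fun z => ?_
    exact isClosed_eq (evc (J • z))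
      (evc z).neg

instance : CompleteSpace OddInv := isClosed_oddInv.completeSpace_coe

/-- the point `i y` -/
noncomputable def iy (y : ℝ) (hy : 0 < y) : ℍ := ⟨⟨0, y⟩, hy⟩

theorem odd_zero (f : OddInv) (y : ℝ) (hy : 0 < y) : (f : ℍ →ᵇ ℂ) (iy y hy) = 0 := by
  have h1 : (J • iy y hy) = iy y hy := by
    apply UpperHalfPlane.ext
    rw [coe_J_smul]
    apply Complex.ext <;> simp [iy]
  have h2 := f.2.2 (iy y hy)
  rw [h1] at h2
  have : (2 : ℂ) * (f : ℍ →ᵇ ℂ) (iy y hy) = 0 := by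
    linear_combination h2
  simpa using this

theorem dist_iy_le (z : ℍ) (hz : |z.re| ≤ 1 / 2) :
    dist z (iy z.im z.im_pos) ≤ 1 / (2 * z.im) := by
  have h := dist_le_dist_coe_div_sqrt z (iy z.im z.im_pos)
  have h2 : dist (z : ℂ) (iy z.im z.im_pos : ℂ) = |z.re| := by
    rw [Complex.dist_eq]
    have : (z : ℂ) - (iy z.im z.im_pos : ℂ) = (z.re : ℂ) := by
      apply Complex.ext <;> simp [iy]
    rw [this, Complex.norm_real, Real.norm_eq_abs]
  have h3 : (iy z.im z.im_pos).im = z.im := rfl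
  rw [h2, h3, Real.sqrt_mul_self z.im_pos.le] at h
  refine h.trans ?_
  rw [div_le_div_iff₀ z.im_pos (by linarith [z.im_pos])]
  nlinarith [z.im_pos]

theorem small_high (T : OddInv →L[ℂ] OddInv) (C : ℝ) (hC : 0 ≤ C)
    (hT : ∀ (f : OddInv) (z w : ℍ),
      ‖(T f : ℍ →ᵇ ℂ) z - (T f : ℍ →ᵇ ℂ) w‖ ≤ C * ‖f‖ * dist z w)
    (f : OddInv) (hf : ‖f‖ ≤ 1) (z : ℍ) (hz : |z.re| ≤ 1 / 2) :
    ‖(T f : ℍ →ᵇ ℂ) z‖ ≤ C / (2 * z.im) := by
  have h1 := hT f z (iy z.im z.im_pos)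
  rw [odd_zero, sub_zero] at h1
  refine h1.trans ?_
  have h2 := dist_iy_le z hz
  calc C * ‖f‖ * dist z (iy z.im z.im_pos) ≤ C * 1 * (1 / (2 * z.im)) := by
        apply mul_le_mul _ h2 dist_nonneg (by linarith)
        exact mul_le_mul_of_nonneg_left hf hC
    _ = C / (2 * z.im) := by ring

theorem compact_of_lipschitz (T : OddInv →L[ℂ] OddInv) (C : ℝ)
    (hT : ∀ (f : OddInv) (z w : ℍ),
      ‖(T f : ℍ →ᵇ ℂ) z - (T f : ℍ →ᵇ ℂ) w‖ ≤ C * ‖f‖ * dist z w) :
    IsCompactOperator T := by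
  -- replace `C` by a nonnegative constant
  wlog hC : 0 ≤ C generalizing C with H
  · refine H |C| (fun f z w => (hT f z w).trans ?_) (abs_nonneg C)
    apply mul_le_mul_of_nonneg_right _ dist_nonneg
    exact mul_le_mul_of_nonneg_right (le_abs_self C) (norm_nonneg f)
  have key : TotallyBounded (T '' Metric.closedBall (0 : OddInv) 1) := by
    rw [Metric.totallyBounded_iff]
    intro ε hε
    -- the height
    obtain ⟨Y, hY0, hY⟩ : ∃ Y : ℝ, 0 < Y ∧ C / (2 * Y) < ε / 4 := by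
      refine ⟨4 * (C + 1) / ε, by positivity, ?_⟩
      rw [div_lt_div_iff₀ (by positivity) (by norm_num)]
      have : ε * (2 * (4 * (C + 1) / ε)) = 8 * (C + 1) := by field_simp; ring
      nlinarith
    set K : Set ℍ := ModularGroup.truncatedFundamentalDomain Y with hK
    have hKc : IsCompact K := ModularGroup.isCompact_truncatedFundamentalDomain Y
    have : CompactSpace K := isCompact_iff_compactSpace.1 hKc
    -- restriction
    let R : (ℍ →ᵇ ℂ) → (K →ᵇ ℂ) := fun f => f.domRestrict K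
    let A : Set (K →ᵇ ℂ) := {g | ∃ f : OddInv, ‖f‖ ≤ 1 ∧ g = R (T f : ℍ →ᵇ ℂ)}
    have hA : IsCompact (closure A) := by
      apply BoundedContinuousFunction.arzela_ascoli (Metric.closedBall (0 : ℂ) ‖T‖)
        (isCompact_closedBall _ _) A
      · rintro g x ⟨f, hf, rfl⟩
        rw [mem_closedBall_zero_iff]
        have h1 : ‖(T f : ℍ →ᵇ ℂ) x‖ ≤ ‖(T f : ℍ →ᵇ ℂ)‖ := (T f : ℍ →ᵇ ℂ).norm_coe_le_norm x
        have h2 : ‖T f‖ ≤ ‖T‖ * ‖f‖ := T.le_opNorm f
        have h3 : ‖T‖ * ‖f‖ ≤ ‖T‖ := by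
          have := mul_le_mul_of_nonneg_left hf (norm_nonneg T)
          linarith
        exact h1.trans (h2.trans h3)
      · intro x
        rw [Metric.equicontinuousAt_iff]
        intro δ hδ
        refine ⟨δ / (C + 1), by positivity, fun y hy g => ?_⟩
        obtain ⟨f, hf, hg⟩ := g.2
        rw [hg]
        rw [dist_eq_norm]
        have h1 := hT f x y
        have h2 : C * ‖f‖ * dist (x : ℍ) y ≤ C * 1 * (δ / (C + 1)) := by
          apply mul_le_mul _ _ dist_nonneg (by linarith)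
          · exact mul_le_mul_of_nonneg_left hf hC
          · rw [dist_comm]; exact hy.le
        refine lt_of_le_of_lt (h1.trans h2) ?_
        rw [mul_one, ← mul_div_assoc, div_lt_iff₀ (by positivity)]
        nlinarith
    have hAt : TotallyBounded A := hA.totallyBounded.subset subset_closure
    obtain ⟨t, htA, htf, ht⟩ := Metric.finite_approx_of_totallyBounded hAt (ε / 4) (by positivity)
    have htA' : ∀ g ∈ t, ∃ f : OddInv, ‖f‖ ≤ 1 ∧ g = R (T f : ℍ →ᵇ ℂ) := fun g hg => htA hg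
    choose! F hF1 hF2 using htA'
    refine ⟨(fun g => T (F g)) '' t, htf.image _, ?_⟩
    rintro _ ⟨f, hf, rfl⟩
    rw [mem_closedBall_zero_iff] at hf
    have hRf : R (T f : ℍ →ᵇ ℂ) ∈ A := ⟨f, hf, rfl⟩
    have h1 := ht hRf
    simp only [Set.mem_iUnion, exists_prop] at h1
    obtain ⟨g, hg, hgf⟩ := h1
    simp only [Set.mem_iUnion, exists_prop]
    refine ⟨T (F g), ⟨g, hg, rfl⟩, ?_⟩
    rw [Metric.mem_ball]
    have hfd : ∀ z ∈ ModularGroup.fd, dist ((T f : ℍ →ᵇ ℂ) z) ((T (F g) : ℍ →ᵇ ℂ) z) ≤ ε / 2 := by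
      intro z hz
      rcases le_or_gt z.im Y with hzY | hzY
      · have hzK : z ∈ K := ⟨hz, hzY⟩
        have h2 : dist ((R (T f : ℍ →ᵇ ℂ)) ⟨z, hzK⟩) (g ⟨z, hzK⟩) ≤ dist (R (T f : ℍ →ᵇ ℂ)) g :=
          BoundedContinuousFunction.dist_coe_le_dist _
        rw [Metric.mem_ball] at hgf
        have h3 : g ⟨z, hzK⟩ = (T (F g) : ℍ →ᵇ ℂ) z := by
          conv_lhs => rw [hF2 g hg]
          rfl
        rw [h3] at h2
        have h4 : (R (T f : ℍ →ᵇ ℂ)) ⟨z, hzK⟩ = (T f : ℍ →ᵇ ℂ) z := rfl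
        rw [h4] at h2
        linarith
      · have hb : ∀ f : OddInv, ‖f‖ ≤ 1 → ‖(T f : ℍ →ᵇ ℂ) z‖ ≤ ε / 4 := by
          intro f hf
          refine (small_high T C hC hT f hf z hz.2).trans ?_
          have : C / (2 * z.im) ≤ C / (2 * Y) := by
            apply div_le_div_of_nonneg_left hC (by linarith) (by linarith)
          linarith
        calc dist ((T f : ℍ →ᵇ ℂ) z) ((T (F g) : ℍ →ᵇ ℂ) z)
            ≤ ‖(T f : ℍ →ᵇ ℂ) z‖ + ‖(T (F g) : ℍ →ᵇ ℂ) z‖ := by
              rw [dist_eq_norm]; exact norm_sub_le _ _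
          _ ≤ ε / 4 + ε / 4 := add_le_add (hb f hf) (hb _ (hF1 g hg))
          _ = ε / 2 := by ring
    have hall : dist (T f : ℍ →ᵇ ℂ) (T (F g) : ℍ →ᵇ ℂ) ≤ ε / 2 := by
      rw [BoundedContinuousFunction.dist_le (by positivity)]
      intro z
      obtain ⟨γ, hγ⟩ := ModularGroup.exists_smul_mem_fd z
      rw [← (T f).2.1 γ z, ← (T (F g)).2.1 γ z]
      exact hfd _ hγ
    have : dist (T f) (T (F g)) = dist (T f : ℍ →ᵇ ℂ) (T (F g) : ℍ →ᵇ ℂ) := rfl
    rw [this]
    linarith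
  exact (isCompactOperator_iff_isCompact_closure_image_closedBall (T : OddInv →ₗ[ℂ] OddInv)
    (zero_lt_one)).2 (key.closure.isCompact_of_isClosed isClosed_closure)

end Pool.Agent.W2.E384
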