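import Pool.Agent.W489.Stubs

/-!
Lefschetz type theorem for the pencil of lines through the origin (`W489.S_T3`).
-/

set_option autoImplicit false

open Metric Set Topology

namespace Pool.Agent.W2.Lef

open H113G

/-- tent function -/
noncomputable def bump (ρ : ℝ) (x : ℂ) : ℝ := max 0 (1 - ‖x‖ / ρ)

lemma bump_zero (ρ : ℝ) : bump ρ 0 = 1 := by simp [bump]

lemma bump_of_le {ρ : ℝ} (hρ : 0 < ρ) {x : ℂ} (hx : ρ ≤ ‖x‖) : bump ρ x = 0 := by
  unfold bump
  apply max_eq_left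
  have : 1 ≤ ‖x‖ / ρ := by rwa [le_div_iff₀ hρ, one_mul]
  linarith

lemma bump_lip {ρ : ℝ} (hρ : 0 < ρ) (x y : ℂ) : |bump ρ x - bump ρ y| ≤ ‖x - y‖ / ρ := by
  unfold bump
  refine (abs_max_sub_max_le_max 0 (1 - ‖x‖ / ρ) 0 (1 - ‖y‖ / ρ)).trans ?_
  rw [sub_zero, abs_zero]
  have h1 : 1 - ‖x‖ / ρ - (1 - ‖y‖ / ρ) = (‖y‖ - ‖x‖) / ρ := by ring
  rw [h1, abs_div, abs_of_pos hρ]
  have h2 : |‖y‖ - ‖x‖| ≤ ‖x - y‖ := by
    rw [abs_sub_comm]; exact abs_norm_sub_norm_le x y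
  exact max_le (by positivity) (by gcongr)

lemma bump_cont (ρ : ℝ) : Continuous (bump ρ) := by
  unfold bump; fun_prop

/-- perturbation of the identity moving `a i` to `b i` -/
noncomputable def Hm {N : ℕ} (ρ : ℝ) (a b : Fin N → ℂ) (t : ℂ) : ℂ :=
  t + ∑ i, (bump ρ (t - a i) : ℂ) * (b i - a i)

lemma Hm_inj {N : ℕ} {ρ : ℝ} (hρ : 0 < ρ) {a b : Fin N → ℂ} (hs : ∑ i, ‖b i - a i‖ < ρ) :
    Function.Injective (Hm ρ a b) := by
  intro x y hxy
  by_contra hne
  have h1 : x - y = ∑ i, ((bump ρ (y - a i) : ℂ) - (bump ρ (x - a i) : ℂ)) * (b i - a i) := by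
    have h2 : x + ∑ i, (bump ρ (x - a i) : ℂ) * (b i - a i)
        = y + ∑ i, (bump ρ (y - a i) : ℂ) * (b i - a i) := hxy
    have h3 : ∑ i, ((bump ρ (y - a i) : ℂ) - (bump ρ (x - a i) : ℂ)) * (b i - a i)
        = ∑ i, (bump ρ (y - a i) : ℂ) * (b i - a i) - ∑ i, (bump ρ (x - a i) : ℂ) * (b i - a i) := by
      rw [← Finset.sum_sub_distrib]
      exact Finset.sum_congr rfl fun i _ => by ring
    rw [h3]
    linear_combination h2
  have h4 : ‖x - y‖ ≤ ∑ i, ‖x - y‖ / ρ * ‖b i - a i‖ := by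
    calc ‖x - y‖ = ‖∑ i, ((bump ρ (y - a i) : ℂ) - (bump ρ (x - a i) : ℂ)) * (b i - a i)‖ := by
          rw [← h1]
      _ ≤ ∑ i, ‖((bump ρ (y - a i) : ℂ) - (bump ρ (x - a i) : ℂ)) * (b i - a i)‖ :=
          norm_sum_le _ _
      _ ≤ ∑ i, ‖x - y‖ / ρ * ‖b i - a i‖ := by
          apply Finset.sum_le_sum
          intro i _
          rw [norm_mul]
          apply mul_le_mul_of_nonneg_right _ (norm_nonneg _)
          rw [← Complex.ofReal_sub, Complex.norm_real, Real.norm_eq_abs]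
          refine (bump_lip hρ _ _).trans (le_of_eq ?_)
          congr 1
          rw [← norm_neg]
          congr 1
          ring
  rw [← Finset.mul_sum] at h4
  have h5 : 0 < ‖x - y‖ := norm_pos_iff.mpr (sub_ne_zero.mpr hne)
  have h6 : ‖x - y‖ / ρ * ∑ i, ‖b i - a i‖ < ‖x - y‖ := by
    calc ‖x - y‖ / ρ * ∑ i, ‖b i - a i‖ < ‖x - y‖ / ρ * ρ := by
          apply mul_lt_mul_of_pos_left hs (by positivity)
      _ = ‖x - y‖ := by field_simp
  linarith

lemma Hm_root {N : ℕ} {ρ : ℝ} (hρ : 0 < ρ) {a b : Fin N → ℂ}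
    (hsep : ∀ i j, i ≠ j → ρ ≤ ‖a i - a j‖) (j : Fin N) : Hm ρ a b (a j) = b j := by
  unfold Hm
  rw [Finset.sum_eq_single j]
  · rw [sub_self, bump_zero]; push_cast; ring
  · intro i _ hij
    rw [bump_of_le hρ (hsep j i (Ne.symm hij))]
    simp
  · simp

lemma Hm_fix {N : ℕ} {ρ : ℝ} (hρ : 0 < ρ) {a b : Fin N → ℂ} {t : ℂ}
    (h : ∀ i, ρ ≤ ‖t - a i‖) : Hm ρ a b t = t := by
  unfold Hm
  rw [Finset.sum_eq_zero]
  · ring
  · intro i _
    rw [bump_of_le hρ (h i)]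
    simp

lemma Hm_self {N : ℕ} (ρ : ℝ) (a : Fin N → ℂ) (t : ℂ) : Hm ρ a a t = t := by
  simp [Hm]

/-- a broken line from `0` to `1` in `ℂ` avoiding a finite set -/
lemma seg_avoid (F : Set ℂ) (hF : F.Finite) (h0 : (0 : ℂ) ∉ F) (h1 : (1 : ℂ) ∉ F) (ε : ℝ)
    (hε : 0 < ε) : ∃ u : ℂ, ‖u - 1 / 2‖ < ε ∧ (∀ s : ℝ, 0 ≤ s → s ≤ 1 → (s : ℂ) * u ∉ F) ∧
      (∀ s : ℝ, 0 ≤ s → s ≤ 1 → 1 + (s : ℂ) * (u - 1) ∉ F) := by
  set bad : Set ℝ := (fun f : ℂ => f.im / (2 * f.re)) '' F ∪ (fun f : ℂ => f.im / (2 * (1 - f.re))) '' F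
    with hbad
  have hbadf : bad.Finite := (hF.image _).union (hF.image _)
  have hinf : (Ioo (0 : ℝ) ε).Infinite := Ioo_infinite hε
  obtain ⟨θ, hθ, hθb⟩ : ∃ θ ∈ Ioo (0 : ℝ) ε, θ ∉ bad := by
    by_contra hcon
    push Not at hcon
    exact hinf (hbadf.subset hcon)
  have hθ1 : θ ∉ (fun f : ℂ => f.im / (2 * f.re)) '' F := fun h => hθb (Or.inl h)
  have hθ2 : θ ∉ (fun f : ℂ => f.im / (2 * (1 - f.re))) '' F := fun h => hθb (Or.inr h)
  refine ⟨1 / 2 + θ * Complex.I, ?_, ?_, ?_⟩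
  · rw [add_sub_cancel_left, norm_mul, Complex.norm_I, mul_one, Complex.norm_real,
      Real.norm_eq_abs, abs_of_pos hθ.1]
    exact hθ.2
  · intro s hs0 hs1 hsF
    rcases eq_or_lt_of_le hs0 with h | h
    · rw [← h] at hsF
      apply h0
      simpa using hsF
    · apply hθ1
      refine ⟨_, hsF, ?_⟩
      have hre : ((s : ℂ) * (1 / 2 + θ * Complex.I)).re = s / 2 := by
        simp [Complex.mul_re]; ring
      have him : ((s : ℂ) * (1 / 2 + θ * Complex.I)).im = s * θ := by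
        simp [Complex.mul_im]
      simp only [hre, him]
      field_simp
  · intro s hs0 hs1 hsF
    rcases eq_or_lt_of_le hs0 with h | h
    · rw [← h] at hsF
      apply h1
      simpa using hsF
    · apply hθ2
      refine ⟨_, hsF, ?_⟩
      have hre : (1 + (s : ℂ) * (1 / 2 + θ * Complex.I - 1)).re = 1 - s / 2 := by
        simp [Complex.mul_re]; ring
      have him : (1 + (s : ℂ) * (1 / 2 + θ * Complex.I - 1)).im = s * θ := by
        simp [Complex.mul_im]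
      simp only [hre, him]
      rw [show (2 * (1 - (1 - s / 2))) = s by ring]
      field_simp

/-- restriction of a polynomial to a complex line has finitely many zeros -/
lemma line_finite {k : ℕ} (D : MvPolynomial (Fin k) ℂ) (x y : Fin k → ℂ)
    (hx : MvPolynomial.eval x D ≠ 0) :
    {t : ℂ | MvPolynomial.eval (x + t • (y - x)) D = 0}.Finite := by
  set P : Polynomial ℂ := MvPolynomial.eval₂ Polynomial.C
    (fun i => Polynomial.C (x i) + Polynomial.X * Polynomial.C (y i - x i)) D with hP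
  have hev : ∀ t : ℂ, P.eval t = MvPolynomial.eval (x + t • (y - x)) D := by
    intro t
    rw [hP, ← Polynomial.coe_evalRingHom, MvPolynomial.hom_eval₂]
    rw [MvPolynomial.eval, MvPolynomial.coe_eval₂Hom]
    congr 1
    · ext z; simp
    · ext i; simp
  have hP0 : P ≠ 0 := by
    intro h
    apply hx
    have := hev 0
    rw [h] at this
    simpa using this.symm
  have : {t : ℂ | MvPolynomial.eval (x + t • (y - x)) D = 0} = {t | t ∈ P.rootSet ℂ} := by
    ext t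
    simp only [mem_ofPred_eq]
    rw [Polynomial.mem_rootSet, ← hev t]
    simp [hP0]
  rw [this]
  exact P.rootSet_finite ℂ

/-- transfer of `EndsAt` along a segment of base points along which the roots move little -/
lemma transfer {k : ℕ} {δ : MvPolynomial (Fin k) ℂ} {W : Type} [TopologicalSpace W]
    {q : W → Sp δ} (cov : IsCoveringMap q) {w₀ : W} (hw₀ : (q w₀).1 = 0)
    {N : ℕ} (z : unitInterval → (Fin k → ℂ)) (hz : Continuous z)
    (b : Fin N → unitInterval → ℂ) (hb : ∀ i, Continuous (b i)) {ρ : ℝ} (hρ : 0 < ρ)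
    (hroot : ∀ s, ∀ t : ℂ, MvPolynomial.eval (t • z s) δ = 0 ↔ ∃ i, t = b i s)
    (hsep : ∀ i j, i ≠ j → ρ ≤ ‖b i 0 - b j 0‖) (h0 : ∀ i, ρ ≤ ‖b i 0‖)
    (h1 : ∀ i, ρ ≤ ‖1 - b i 0‖) (hsum : ∀ s, ∑ i, ‖b i s - b i 0‖ < ρ)
    (σ : unitInterval → W) (hσ : Continuous σ) (hσz : ∀ s, (q (σ s)).1 = z s)
    (h : EndsAt q w₀ (σ 0) (z 0) 1) : EndsAt q w₀ (σ 1) (z 1) 1 := by
  obtain ⟨c, ⟨hc0, hc1, hcδ⟩, Γ, hΓ0, hΓ1, hΓ⟩ := h
  set H : unitInterval → ℂ → ℂ := fun s t => Hm ρ (fun i => b i 0) (fun i => b i s) t with hH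
  have hHc : Continuous (fun p : unitInterval × ℂ => H p.1 p.2) := by
    simp only [hH, Hm]
    refine continuous_snd.add (continuous_finsetSum _ fun i _ => ?_)
    refine (Complex.continuous_ofReal.comp ((bump_cont ρ).comp (by fun_prop))).mul ?_
    exact ((hb i).comp continuous_fst).sub continuous_const
  have hH0 : ∀ s, H s 0 = 0 := fun s => Hm_fix hρ (fun i => by
    rw [zero_sub, norm_neg]; exact h0 i)
  have hH1 : ∀ s, H s 1 = 1 := fun s => Hm_fix hρ h1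
  have hHi : ∀ t, H 0 t = t := fun t => Hm_self ρ _ t
  have hHr : ∀ s t, MvPolynomial.eval (t • z 0) δ ≠ 0 → MvPolynomial.eval (H s t • z s) δ ≠ 0 := by
    intro s t ht hcon
    rw [hroot] at hcon
    obtain ⟨i, hi⟩ := hcon
    have h2 : H s (b i 0) = b i s := Hm_root hρ hsep i
    have h3 : t = b i 0 := Hm_inj hρ (hsum s) (hi.trans h2.symm)
    exact ht ((hroot 0 t).mpr ⟨i, h3⟩)
  set F : C(unitInterval × unitInterval, Sp δ) :=
    ⟨fun p => ⟨H p.1 (c p.2) • z p.1, hHr p.1 (c p.2) (hcδ p.2)⟩, by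
      apply Continuous.subtype_mk
      exact (hHc.comp (continuous_fst.prodMk (c.continuous.comp continuous_snd))).smul
        (hz.comp continuous_fst)⟩ with hF
  have hF0 : ∀ a, F (0, a) = q (Γ a) := by
    intro a
    apply Subtype.ext
    rw [hΓ a]
    simp [hF, hHi]
  set L := cov.liftHomotopy F Γ hF0 with hL
  have hLq : ∀ s a, q (L (s, a)) = F (s, a) := fun s a =>
    congr_fun (cov.liftHomotopy_lifts F Γ hF0) (s, a)
  have hL0 : ∀ a, L (0, a) = Γ a := fun a => cov.liftHomotopy_zero F Γ hF0 a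
  have hLs0 : ∀ s, L (s, 0) = w₀ := by
    have := cov.eq_of_comp_eq (A := unitInterval) (g₁ := fun s => L (s, 0)) (g₂ := fun _ => w₀)
      (by fun_prop) continuous_const
      (by
        funext s
        show q (L (s, 0)) = q w₀
        rw [hLq]
        apply Subtype.ext
        rw [hw₀]
        simp [hF, hc0, hH0]) 0 (by
        show L (0, 0) = w₀
        rw [hL0, hΓ0])
    exact fun s => congr_fun this s
  have hLs1 : ∀ s, L (s, 1) = σ s := by
    have := cov.eq_of_comp_eq (A := unitInterval) (g₁ := fun s => L (s, 1)) (g₂ := σ)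
      (by fun_prop) hσ
      (by
        funext s
        show q (L (s, 1)) = q (σ s)
        rw [hLq]
        apply Subtype.ext
        rw [hσz]
        simp [hF, hc1, hH1]) 0 (by
        show L (0, 1) = σ 0
        rw [hL0, hΓ1])
    exact fun s => congr_fun this s
  refine ⟨⟨fun τ => H 1 (c τ), hHc.comp (continuous_const.prodMk c.continuous)⟩, ⟨?_, ?_, ?_⟩,
    ⟨fun τ => L (1, τ), by fun_prop⟩, hLs0 1, hLs1 1, ?_⟩
  · show H 1 (c 0) = 0
    rw [hc0, hH0]
  · show H 1 (c 1) = 1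
    rw [hc1, hH1]
  · intro τ
    exact hHr 1 (c τ) (hcδ τ)
  · intro τ
    show (q (L (1, τ))).1 = H 1 (c τ) • z 1
    rw [hLq]
    rfl

lemma isOpen_ne {k : ℕ} (δ : MvPolynomial (Fin k) ℂ) :
    IsOpen {z : Fin k → ℂ | MvPolynomial.eval z δ ≠ 0} :=
  isOpen_ne_fun (MvPolynomial.continuous_eval δ) continuous_const

/-- local sections of the covering over balls of `ℂ^k` -/
lemma sheet {k : ℕ} {δ : MvPolynomial (Fin k) ℂ} {W : Type} [TopologicalSpace W]
    {q : W → Sp δ} (cov : IsCoveringMap q) (w : W) :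
    ∃ r : ℝ, 0 < r ∧ ∃ σ : (Fin k → ℂ) → W, ContinuousOn σ (ball (q w).1 r) ∧
      (∀ z ∈ ball (q w).1 r, MvPolynomial.eval z δ ≠ 0) ∧
      (∀ z ∈ ball (q w).1 r, (q (σ z)).1 = z) ∧ ∀ᶠ w' in 𝓝 w, σ (q w').1 = w' := by
  obtain ⟨e, hwe, he⟩ := cov.isLocalHomeomorph w
  have hopen : IsOpen (Subtype.val '' e.target : Set (Fin k → ℂ)) :=
    (isOpen_ne δ).isOpenMap_subtype_val _ e.open_target
  have hmem : (q w).1 ∈ (Subtype.val '' e.target : Set (Fin k → ℂ)) :=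
    ⟨q w, by rw [he]; exact e.map_source hwe, rfl⟩
  obtain ⟨r, hr, hball⟩ := Metric.isOpen_iff.mp hopen _ hmem
  have hδ : ∀ z ∈ ball (q w).1 r, MvPolynomial.eval z δ ≠ 0 := by
    intro z hz
    obtain ⟨x, _, hx⟩ := hball hz
    rw [← hx]; exact x.2
  classical
  set σ : (Fin k → ℂ) → W := fun z =>
    if h : MvPolynomial.eval z δ ≠ 0 then e.symm ⟨z, h⟩ else w with hσ
  have htar : ∀ z (hz : z ∈ ball (q w).1 r), (⟨z, hδ z hz⟩ : Sp δ) ∈ e.target := by
    intro z hz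
    obtain ⟨x, hx1, hx⟩ := hball hz
    have : x = ⟨z, hδ z hz⟩ := Subtype.ext hx
    rw [← this]; exact hx1
  refine ⟨r, hr, σ, ?_, hδ, ?_, ?_⟩
  · rw [continuousOn_iff_continuous_domRestrict]
    let g : (ball (q w).1 r) → Sp δ := fun z => ⟨z.1, hδ z.1 z.2⟩
    have hg : Continuous g := Continuous.subtype_mk continuous_subtype_val _
    have h1 : ∀ z : (ball (q w).1 r), σ z.1 = e.symm (g z) := by
      intro z
      exact dif_pos (hδ z.1 z.2)
    have h2 : (ball (q w).1 r).domRestrict σ = fun z => e.symm (g z) := funext h1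
    rw [h2]
    exact e.continuousOn_symm.comp_continuous hg (fun z => htar z.1 z.2)
  · intro z hz
    have h1 : σ z = e.symm ⟨z, hδ z hz⟩ := by
      simp only [hσ]; rw [dif_pos (hδ z hz)]
    rw [h1, he, e.right_inv (htar z hz)]
  · filter_upwards [e.open_source.mem_nhds hwe] with w' hw'
    have h1 : σ (q w').1 = e.symm ⟨(q w').1, (q w').2⟩ := by
      simp only [hσ]; rw [dif_pos (q w').2]
    rw [h1]
    have h2 : (⟨(q w').1, (q w').2⟩ : Sp δ) = e w' := by rw [← he]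
    rw [h2, e.left_inv hw']

/-- near a point with `D ≠ 0` the property `EndsAt` is locally constant -/
lemma local_transfer {k : ℕ} {δ D : MvPolynomial (Fin k) ℂ}
    (hδ0 : MvPolynomial.eval (0 : Fin k → ℂ) δ ≠ 0)
    (hD : ∀ z : Fin k → ℂ, MvPolynomial.eval z D ≠ 0 →
      ∃ (N : ℕ) (ε : ℝ) (b : Fin N → (Fin k → ℂ) → ℂ),
        0 < ε ∧ (∀ i, ContinuousOn (b i) (ball z ε)) ∧
        ∀ z' ∈ ball z ε, Function.Injective (fun i => b i z') ∧
          ∀ t : ℂ, MvPolynomial.eval (t • z') δ = 0 ↔ ∃ i, t = b i z')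
    {W : Type} [TopologicalSpace W]
    {q : W → Sp δ} (cov : IsCoveringMap q) {w₀ : W} (hw₀ : (q w₀).1 = 0) (w : W)
    (hw : MvPolynomial.eval (q w).1 D ≠ 0) :
    ∃ U ∈ 𝓝 w, ∀ w₁ ∈ U, ∀ w₂ ∈ U, EndsAt q w₀ w₁ (q w₁).1 1 → EndsAt q w₀ w₂ (q w₂).1 1 := by
  obtain ⟨N, ε, b, hε, hbc, hb⟩ := hD _ hw
  obtain ⟨r, hr, σ, hσc, hσδ, hσq, hσw⟩ := sheet cov w
  set z := (q w).1 with hz
  obtain ⟨hinj, hroot⟩ := hb z (mem_ball_self hε)
  have hne0 : ∀ i, b i z ≠ 0 := by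
    intro i hi
    have := (hroot 0).mpr ⟨i, hi.symm⟩
    rw [zero_smul] at this
    exact hδ0 this
  have hne1 : ∀ i, 1 - b i z ≠ 0 := by
    intro i hi
    have := (hroot 1).mpr ⟨i, sub_eq_zero.mp hi⟩
    rw [one_smul] at this
    exact (q w).2 this
  have hsm : ∀ x : ℂ, x ≠ 0 → ∀ᶠ ρ : ℝ in 𝓝[>] 0, 2 * ρ ≤ ‖x‖ := by
    intro x hx
    have hx' : 0 < ‖x‖ := norm_pos_iff.mpr hx
    have : ∀ᶠ ρ : ℝ in 𝓝 0, 2 * ρ < ‖x‖ := by
      apply ContinuousAt.eventually_lt (by fun_prop) (by fun_prop)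
      simpa using hx'
    exact (this.filter_mono nhdsWithin_le_nhds).mono fun ρ h => h.le
  have hρex : ∀ᶠ ρ : ℝ in 𝓝[>] 0, 0 < ρ ∧ (∀ i, 2 * ρ ≤ ‖b i z‖) ∧ (∀ i, 2 * ρ ≤ ‖1 - b i z‖) ∧
      (∀ i j, i ≠ j → 2 * ρ ≤ ‖b i z - b j z‖) := by
    refine (eventually_mem_nhdsWithin (a := (0 : ℝ)) (s := Ioi 0)).and ?_
    refine (Filter.eventually_all.mpr fun i => hsm _ (hne0 i)).and ?_
    refine (Filter.eventually_all.mpr fun i => hsm _ (hne1 i)).and ?_
    refine Filter.eventually_all.mpr fun i => Filter.eventually_all.mpr fun j => ?_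
    by_cases hij : i = j
    · exact Filter.Eventually.of_forall fun ρ h => absurd hij h
    · have : b i z - b j z ≠ 0 := fun h => hij (hinj (sub_eq_zero.mp h))
      exact (hsm _ this).mono fun ρ h _ => h
  obtain ⟨ρ, hρ, hρ0, hρ1, hρs⟩ := hρex.exists
  have hN : (0 : ℝ) < 2 * (N + 1) := by positivity
  have hclose : ∀ᶠ z' in 𝓝 z, ∀ i, ‖b i z' - b i z‖ < ρ / (2 * (N + 1)) := by
    refine Filter.eventually_all.mpr fun i => ?_
    have hca : ContinuousAt (b i) z := (hbc i).continuousAt (ball_mem_nhds z hε)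
    have h1 : ContinuousAt (fun z' => ‖b i z' - b i z‖) z := (hca.sub continuousAt_const).norm
    have h2 := h1.eventually_lt (continuousAt_const (y := ρ / (2 * (N + 1))))
      (by rw [sub_self, norm_zero]; positivity)
    exact h2
  obtain ⟨r₁, hr₁, hball⟩ := Metric.mem_nhds_iff.mp
    (Filter.inter_mem hclose (Filter.inter_mem (ball_mem_nhds z hε) (ball_mem_nhds z hr)))
  have hqc : Continuous (fun w' => (q w').1) := continuous_subtype_val.comp cov.continuous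
  refine ⟨{w' | (q w').1 ∈ ball z r₁ ∧ σ (q w').1 = w'},
    Filter.inter_mem (hqc.continuousAt (ball_mem_nhds z hr₁)) hσw, ?_⟩
  rintro w₁ ⟨hw₁, hσ₁⟩ w₂ ⟨hw₂, hσ₂⟩ hE
  set ζ : unitInterval → (Fin k → ℂ) := fun s => (q w₁).1 + (s : ℝ) • ((q w₂).1 - (q w₁).1) with hζ
  have hζb : ∀ s, ζ s ∈ ball z r₁ := fun s =>
    (convex_ball z r₁).add_smul_sub_mem hw₁ hw₂ s.2
  have hζc : Continuous ζ := by
    simp only [hζ]; fun_prop
  have hζ0 : ζ 0 = (q w₁).1 := by simp [hζ]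
  have hζ1 : ζ 1 = (q w₂).1 := by simp [hζ]
  have hsub1 : ∀ x ∈ ball z r₁, ∀ i, ‖b i x - b i z‖ < ρ / (2 * (N + 1)) := fun x hx => (hball hx).1
  have hsub2 : ∀ x ∈ ball z r₁, x ∈ ball z ε := fun x hx => (hball hx).2.1
  have hsub3 : ∀ x ∈ ball z r₁, x ∈ ball z r := fun x hx => (hball hx).2.2
  have hNρ : ρ / (2 * (N + 1)) ≤ ρ / 2 := by
    apply div_le_div_of_nonneg_left hρ.le (by norm_num)
    have : (0 : ℝ) ≤ N := Nat.cast_nonneg N
    linarith
  have key := transfer (q := q) cov hw₀ ζ hζc (fun i s => b i (ζ s))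
    (fun i => (hbc i).comp_continuous hζc (fun s => hsub2 _ (hζb s))) hρ
    (fun s t => (hb (ζ s) (hsub2 _ (hζb s))).2 t)
    (by
      intro i j hij
      have h1 := hsub1 _ (hζb 0) i
      have h2 := hsub1 _ (hζb 0) j
      have h3 := hρs i j hij
      have h4 : ‖b i z - b j z‖ ≤ ‖b i (ζ 0) - b j (ζ 0)‖ + ‖b i (ζ 0) - b i z‖
          + ‖b j (ζ 0) - b j z‖ := by
        have : b i z - b j z = (b i (ζ 0) - b j (ζ 0)) - (b i (ζ 0) - b i z)
          + (b j (ζ 0) - b j z) := by ring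
        rw [this]
        exact (norm_add_le _ _).trans (add_le_add_left (norm_sub_le _ _) _)
      linarith)
    (by
      intro i
      have h1 := hsub1 _ (hζb 0) i
      have h3 := hρ0 i
      have h4 : ‖b i z‖ ≤ ‖b i (ζ 0)‖ + ‖b i (ζ 0) - b i z‖ := by
        have : b i z = b i (ζ 0) - (b i (ζ 0) - b i z) := by ring
        calc ‖b i z‖ = ‖b i (ζ 0) - (b i (ζ 0) - b i z)‖ := by rw [← this]
          _ ≤ _ := norm_sub_le _ _
      linarith)
    (by
      intro i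
      have h1 := hsub1 _ (hζb 0) i
      have h3 := hρ1 i
      have h4 : ‖1 - b i z‖ ≤ ‖1 - b i (ζ 0)‖ + ‖b i (ζ 0) - b i z‖ := by
        have : 1 - b i z = (1 - b i (ζ 0)) + (b i (ζ 0) - b i z) := by ring
        rw [this]
        exact norm_add_le _ _
      linarith)
    (by
      intro s
      have h1 : ∀ i, ‖b i (ζ s) - b i (ζ 0)‖ ≤ ρ / (N + 1) := by
        intro i
        have h1 := hsub1 _ (hζb 0) i
        have h2 := hsub1 _ (hζb s) i
        have h4 : ‖b i (ζ s) - b i (ζ 0)‖ ≤ ‖b i (ζ s) - b i z‖ + ‖b i (ζ 0) - b i z‖ := by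
          have : b i (ζ s) - b i (ζ 0) = (b i (ζ s) - b i z) - (b i (ζ 0) - b i z) := by ring
          rw [this]
          exact norm_sub_le _ _
        have h5 : ρ / (2 * (N + 1)) + ρ / (2 * (N + 1)) = ρ / (N + 1) := by
          field_simp; ring
        linarith
      calc ∑ i, ‖b i (ζ s) - b i (ζ 0)‖ ≤ ∑ _i : Fin N, ρ / (N + 1) := Finset.sum_le_sum fun i _ => h1 i
        _ = N * (ρ / (N + 1)) := by simp
        _ < ρ := by
          rw [mul_div_assoc', div_lt_iff₀ (by positivity)]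
          nlinarith)
    (fun s => σ (ζ s)) (hσc.comp_continuous hζc (fun s => hsub3 _ (hζb s)))
    (fun s => hσq _ (hsub3 _ (hζb s)))
  simp only [hζ0, hζ1, hσ₁, hσ₂] at key
  exact key hE

/-- propagation of `EndsAt` along a path in `{D ≠ 0}` -/
lemma path_transfer {k : ℕ} {δ D : MvPolynomial (Fin k) ℂ}
    (hδ0 : MvPolynomial.eval (0 : Fin k → ℂ) δ ≠ 0)
    (hD : ∀ z : Fin k → ℂ, MvPolynomial.eval z D ≠ 0 →
      ∃ (N : ℕ) (ε : ℝ) (b : Fin N → (Fin k → ℂ) → ℂ),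
        0 < ε ∧ (∀ i, ContinuousOn (b i) (ball z ε)) ∧
        ∀ z' ∈ ball z ε, Function.Injective (fun i => b i z') ∧
          ∀ t : ℂ, MvPolynomial.eval (t • z') δ = 0 ↔ ∃ i, t = b i z')
    {W : Type} [TopologicalSpace W]
    {q : W → Sp δ} (cov : IsCoveringMap q) {w₀ : W} (hw₀ : (q w₀).1 = 0)
    (γ : unitInterval → W) (hγ : Continuous γ)
    (hγD : ∀ s, MvPolynomial.eval (q (γ s)).1 D ≠ 0) :
    EndsAt q w₀ (γ 0) (q (γ 0)).1 1 ↔ EndsAt q w₀ (γ 1) (q (γ 1)).1 1 := by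
  have hloc : IsLocallyConstant (fun s => EndsAt q w₀ (γ s) (q (γ s)).1 1) := by
    rw [IsLocallyConstant.iff_eventually_eq]
    intro s
    obtain ⟨U, hU, h⟩ := local_transfer hδ0 hD cov hw₀ (γ s) (hγD s)
    have hs : γ s ∈ U := mem_of_mem_nhds hU
    filter_upwards [hγ.continuousAt hU] with s' hs'
    exact propext ⟨h _ hs' _ hs, h _ hs _ hs'⟩
  exact Eq.to_iff (hloc.apply_eq_of_preconnectedSpace 0 1)

theorem lefschetz : W489.S_T3 := by
  intro k δ D hδ0 hDne hD W _ q cov w₀ hw₀ w hw hwD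
  set G : Set W := {w | ∀ᶠ w' in 𝓝 w, MvPolynomial.eval (q w').1 D ≠ 0 →
    EndsAt q w₀ w' (q w').1 1} with hG
  set H : Set W := {w | ∀ᶠ w' in 𝓝 w, MvPolynomial.eval (q w').1 D ≠ 0 →
    ¬ EndsAt q w₀ w' (q w').1 1} with hH
  have hGo : IsOpen G := isOpen_setOfPred_eventually_nhds
  have hHo : IsOpen H := isOpen_setOfPred_eventually_nhds
  have hqc : Continuous (fun w' => (q w').1) := continuous_subtype_val.comp cov.continuous
  -- the union is everything
  have hun : ∀ w, w ∈ G ∨ w ∈ H := by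
    intro w
    obtain ⟨r, hr, σ, hσc, hσδ, hσq, hσw⟩ := sheet cov w
    set z := (q w).1 with hz
    have hiff : ∀ z₁ ∈ ball z r, ∀ z₂ ∈ ball z r, MvPolynomial.eval z₁ D ≠ 0 →
        MvPolynomial.eval z₂ D ≠ 0 → EndsAt q w₀ (σ z₁) z₁ 1 → EndsAt q w₀ (σ z₂) z₂ 1 := by
      intro z₁ hz₁ z₂ hz₂ hD₁ hD₂ hE
      set F : Set ℂ := {t : ℂ | MvPolynomial.eval (z₁ + t • (z₂ - z₁)) D = 0} with hF
      have hFf : F.Finite := line_finite D z₁ z₂ hD₁
      have h0 : (0 : ℂ) ∉ F := by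
        intro h
        simp only [hF, mem_ofPred_eq, zero_smul, add_zero] at h
        exact hD₁ h
      have h1 : (1 : ℂ) ∉ F := by
        intro h
        simp only [hF, mem_ofPred_eq, one_smul, add_sub_cancel] at h
        exact hD₂ h
      have hcl : ∀ᶠ u : ℂ in 𝓝 (1 / 2), z₁ + u • (z₂ - z₁) ∈ ball z r := by
        have hc : ContinuousAt (fun u : ℂ => z₁ + u • (z₂ - z₁)) (1 / 2) := by fun_prop
        apply hc.eventually_mem
        apply isOpen_ball.mem_nhds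
        have := (convex_ball z r).add_smul_sub_mem hz₁ hz₂ (t := 1 / 2)
          ⟨by norm_num, by norm_num⟩
        convert! this using 2
        ext i
        simp
      obtain ⟨ε, hε, hεb⟩ := Metric.eventually_nhds_iff.mp hcl
      obtain ⟨u, hu, hu1, hu2⟩ := seg_avoid F hFf h0 h1 ε hε
      have hub : z₁ + u • (z₂ - z₁) ∈ ball z r := hεb (by rwa [dist_eq_norm])
      set zm := z₁ + u • (z₂ - z₁) with hzm
      set γ₁ : unitInterval → (Fin k → ℂ) := fun s => z₁ + (s : ℝ) • (zm - z₁) with hγ₁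
      set γ₂ : unitInterval → (Fin k → ℂ) := fun s => z₂ + (s : ℝ) • (zm - z₂) with hγ₂
      have hγ₁c : Continuous γ₁ := by simp only [hγ₁]; fun_prop
      have hγ₂c : Continuous γ₂ := by simp only [hγ₂]; fun_prop
      have hγ₁b : ∀ s, γ₁ s ∈ ball z r := fun s => (convex_ball z r).add_smul_sub_mem hz₁ hub s.2
      have hγ₂b : ∀ s, γ₂ s ∈ ball z r := fun s => (convex_ball z r).add_smul_sub_mem hz₂ hub s.2
      have hγ₁D : ∀ s, MvPolynomial.eval (γ₁ s) D ≠ 0 := by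
        intro s hs
        apply hu1 (s : ℝ) s.2.1 s.2.2
        have he : z₁ + (((s : ℝ) : ℂ) * u) • (z₂ - z₁) = γ₁ s := by
          funext i
          simp only [hγ₁, hzm, Pi.add_apply, Pi.smul_apply, Pi.sub_apply, smul_eq_mul,
            Complex.real_smul]
          ring
        show MvPolynomial.eval (z₁ + (((s : ℝ) : ℂ) * u) • (z₂ - z₁)) D = 0
        rw [he, hs]
      have hγ₂D : ∀ s, MvPolynomial.eval (γ₂ s) D ≠ 0 := by
        intro s hs
        apply hu2 (s : ℝ) s.2.1 s.2.2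
        have he : z₁ + (1 + ((s : ℝ) : ℂ) * (u - 1)) • (z₂ - z₁) = γ₂ s := by
          funext i
          simp only [hγ₂, hzm, Pi.add_apply, Pi.smul_apply, Pi.sub_apply, smul_eq_mul,
            Complex.real_smul]
          ring
        show MvPolynomial.eval (z₁ + (1 + ((s : ℝ) : ℂ) * (u - 1)) • (z₂ - z₁)) D = 0
        rw [he, hs]
      have k1 := path_transfer hδ0 hD cov hw₀ (fun s => σ (γ₁ s))
        (hσc.comp_continuous hγ₁c hγ₁b) (fun s => by rw [hσq _ (hγ₁b s)]; exact hγ₁D s)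
      have k2 := path_transfer hδ0 hD cov hw₀ (fun s => σ (γ₂ s))
        (hσc.comp_continuous hγ₂c hγ₂b) (fun s => by rw [hσq _ (hγ₂b s)]; exact hγ₂D s)
      have e1 : γ₁ 0 = z₁ := by simp [hγ₁]
      have e2 : γ₁ 1 = zm := by simp [hγ₁]
      have e3 : γ₂ 0 = z₂ := by simp [hγ₂]
      have e4 : γ₂ 1 = zm := by simp [hγ₂]
      simp only [hσq _ (hγ₁b _)] at k1
      simp only [hσq _ (hγ₂b _)] at k2
      rw [e1, e2] at k1
      rw [e3, e4] at k2
      exact k2.mpr (k1.mp hE)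
    have hnear : ∀ᶠ w' in 𝓝 w, (q w').1 ∈ ball z r ∧ σ (q w').1 = w' :=
      Filter.Eventually.and (hqc.continuousAt (ball_mem_nhds z hr)) hσw
    by_cases hex : ∃ z₁ ∈ ball z r, MvPolynomial.eval z₁ D ≠ 0 ∧ EndsAt q w₀ (σ z₁) z₁ 1
    · left
      obtain ⟨z₁, hz₁, hD₁, hE⟩ := hex
      refine hnear.mono ?_
      rintro w' ⟨hw1, hw2⟩ hDw
      have := hiff z₁ hz₁ _ hw1 hD₁ hDw hE
      rwa [hw2] at this
    · right
      refine hnear.mono ?_
      rintro w' ⟨hw1, hw2⟩ hDw hE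
      apply hex
      refine ⟨_, hw1, hDw, ?_⟩
      rwa [hw2]
  -- the intersection is empty
  have hdis : ∀ w, w ∈ G → w ∉ H := by
    intro w hwG hwH
    obtain ⟨r, hr, σ, hσc, hσδ, hσq, hσw⟩ := sheet cov w
    set z := (q w).1 with hz
    obtain ⟨y, hy⟩ : ∃ y, MvPolynomial.eval y D ≠ 0 := by
      by_contra hcon
      push Not at hcon
      apply hDne
      apply MvPolynomial.funext
      intro x
      rw [hcon x, map_zero]
    have hfin := line_finite D y z hy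
    have hσcont : ContinuousAt σ z := hσc.continuousAt (ball_mem_nhds z hr)
    have hσz : σ z = w := hσw.self_of_nhds
    have hpull : ∀ᶠ z' in 𝓝 z, (MvPolynomial.eval z' D ≠ 0 → EndsAt q w₀ (σ z') z' 1) ∧
        (MvPolynomial.eval z' D ≠ 0 → ¬ EndsAt q w₀ (σ z') z' 1) := by
      have h1 : ∀ᶠ z' in 𝓝 z, ((MvPolynomial.eval (q (σ z')).1 D ≠ 0 →
          EndsAt q w₀ (σ z') (q (σ z')).1 1) ∧ (MvPolynomial.eval (q (σ z')).1 D ≠ 0 →
          ¬ EndsAt q w₀ (σ z') (q (σ z')).1 1)) := by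
        have h2 := hwG.and hwH
        rw [← hσz] at h2
        exact hσcont.eventually h2
      filter_upwards [h1, ball_mem_nhds z hr] with z' h2 h3
      rwa [hσq z' h3] at h2
    have hline : ∀ᶠ t : ℂ in 𝓝 (1 : ℂ), MvPolynomial.eval (y + t • (z - y)) D = 0 := by
      have hc : ContinuousAt (fun t : ℂ => y + t • (z - y)) 1 := by fun_prop
      have h1 : y + (1 : ℂ) • (z - y) = z := by rw [one_smul]; abel
      have h0 : Filter.Tendsto (fun t : ℂ => y + t • (z - y)) (𝓝 1) (𝓝 z) := by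
        have h3 := hc.tendsto
        rwa [h1] at h3
      have h2 := h0.eventually hpull
      refine h2.mono fun t ht => ?_
      by_contra hcon
      exact ht.2 hcon (ht.1 hcon)
    have hinf : (𝓝[≠] (1 : ℂ)).NeBot := inferInstance
    have h3 : ∀ᶠ t : ℂ in 𝓝[≠] (1 : ℂ), MvPolynomial.eval (y + t • (z - y)) D ≠ 0 := by
      have h4 : {t : ℂ | MvPolynomial.eval (y + t • (z - y)) D = 0}ᶜ ∈ 𝓝[≠] (1 : ℂ) := by
        have h5 : ({t : ℂ | MvPolynomial.eval (y + t • (z - y)) D = 0} \ {1})ᶜ ∈ 𝓝 (1 : ℂ) :=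
          (hfin.subset sdiff_subset).isClosed.isOpen_compl.mem_nhds (by simp)
        filter_upwards [nhdsWithin_le_nhds h5, self_mem_nhdsWithin] with t ht1 ht2 ht3
        exact ht1 ⟨ht3, ht2⟩
      exact h4
    obtain ⟨t, ht1, ht2⟩ := (h3.and (hline.filter_mono nhdsWithin_le_nhds)).exists
    exact ht1 ht2
  have hGc : IsClosed G := by
    have : G = Hᶜ := by
      ext w
      exact ⟨fun h => hdis w h, fun h => (hun w).resolve_right h⟩
    rw [this]
    exact hHo.isClosed_compl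
  -- the base point
  have hbase : w₀ ∈ G := by
    obtain ⟨r, hr, σ, hσc, hσδ, hσq, hσw⟩ := sheet cov w₀
    rw [hw₀] at hσc hσδ hσq
    have hσ0 : σ 0 = w₀ := by
      have := hσw.self_of_nhds
      rwa [hw₀] at this
    have hnear : ∀ᶠ w' in 𝓝 w₀, (q w').1 ∈ ball (0 : Fin k → ℂ) r ∧ σ (q w').1 = w' := by
      refine Filter.Eventually.and ?_ hσw
      have := hqc.continuousAt (x := w₀)
      apply this.eventually_mem
      rw [hw₀]
      exact ball_mem_nhds 0 hr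
    refine hnear.mono ?_
    rintro w' ⟨hw1, hw2⟩ _
    have hb : ∀ τ : unitInterval, ((τ : ℝ) : ℂ) • (q w').1 ∈ ball (0 : Fin k → ℂ) r := by
      intro τ
      rw [mem_ball_zero_iff, norm_smul, Complex.norm_real, Real.norm_eq_abs, abs_of_nonneg τ.2.1]
      rw [mem_ball_zero_iff] at hw1
      calc (τ : ℝ) * ‖(q w').1‖ ≤ 1 * ‖(q w').1‖ :=
            mul_le_mul_of_nonneg_right τ.2.2 (norm_nonneg _)
        _ < r := by rwa [one_mul]
    have hcc : Continuous (fun τ : unitInterval => ((τ : ℝ) : ℂ)) :=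
      Complex.continuous_ofReal.comp continuous_subtype_val
    have hcc2 : Continuous (fun τ : unitInterval => ((τ : ℝ) : ℂ) • (q w').1) :=
      hcc.smul continuous_const
    refine ⟨⟨fun τ => ((τ : ℝ) : ℂ), hcc⟩, ⟨by simp, by simp, fun τ => hσδ _ (hb τ)⟩,
      ⟨fun τ => σ (((τ : ℝ) : ℂ) • (q w').1), hσc.comp_continuous hcc2 hb⟩, ?_, ?_, ?_⟩
    · show σ ((((0 : unitInterval) : ℝ) : ℂ) • (q w').1) = w₀
      simp [hσ0]
    · show σ ((((1 : unitInterval) : ℝ) : ℂ) • (q w').1) = w'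
      simp [hw2]
    · intro τ
      exact hσq _ (hb τ)
  have hcl : IsClopen G := ⟨hGc, hGo⟩
  have hwG : w ∈ G := hcl.connectedComponent_subset hbase hw
  exact hwG.self_of_nhds hwD

end Pool.Agent.W2.Lef
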